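import Pool.Agent.Helper95.AB.GoalsW

/-! # Project AB, packet ANN: the annulus estimate -/

open MeasureTheory Set Filter Topology
open scoped ContDiff

noncomputable section

namespace Pool.Agent.Helper50.AB

open Pool.Agent.Helper24.AB Pool.Agent.Helper95.AB

/-- the point of the circle -/
def cp (x : ℂ) (r θ : ℝ) : ℂ := x + r * Complex.exp (θ * Complex.I)

theorem cp_cont (x : ℂ) : Continuous fun p : ℝ × ℝ => cp x p.1 p.2 := by
  unfold cp
  fun_prop

theorem dist_cp (x : ℂ) {r : ℝ} (hr : 0 ≤ r) (θ : ℝ) : dist (cp x r θ) x = r := by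
  rw [cp, dist_eq_norm, add_sub_cancel_left, norm_mul, Complex.norm_exp_ofReal_mul_I, mul_one,
    Complex.norm_real, Real.norm_eq_abs, abs_of_nonneg hr]

theorem cp_per (x : ℂ) (r θ : ℝ) : cp x r (θ + 2 * Real.pi) = cp x r θ := by
  rw [cp, cp]
  congr 2
  push_cast
  rw [add_mul, Complex.exp_add, Complex.exp_two_pi_mul_I, mul_one]

theorem isOpen_strip (a : ℝ) : IsOpen (strip a) :=
  isOpen_lt (continuous_abs.comp Complex.continuous_re) continuous_const

theorem ball_sub_strip {a : ℝ} {x : ℂ} {s : ℝ} (h : |x.re| + s < a) :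
    Metric.closedBall x s ⊆ strip a := by
  intro w hw
  rw [Metric.mem_closedBall, dist_eq_norm] at hw
  change |w.re| < a
  have h1 : |(w - x).re| ≤ ‖w - x‖ := Complex.abs_re_le_norm _
  rw [Complex.sub_re] at h1
  have h2 : |w.re| ≤ |x.re| + |w.re - x.re| := by
    have := abs_add_le x.re (w.re - x.re)
    rwa [add_sub_cancel] at this
  linarith

theorem dZ_neg (y : ℝ) : dZ (-y) = dZ y := by
  have h : ∀ y : ℝ, dZ (-y) ≤ dZ y := fun y => by
    have h := round_le (-y) (-round y)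
    rw [dZ, dZ]
    refine h.trans (le_of_eq ?_)
    push_cast
    rw [← abs_neg]
    congr 1
    ring
  refine le_antisymm (h y) ?_
  have := h (-y)
  rwa [neg_neg] at this

/-- polar coordinates: an integral over an annulus is nonnegative if the integrals over the circles are -/
theorem polar_nonneg (x : ℂ) {r₁ r₂ : ℝ} (h0 : 0 < r₁) (h : ℂ → ℝ)
    (hc : ContinuousOn h (Metric.closedBall x r₂))
    (hnn : ∀ r, r₁ < r → r < r₂ → 0 ≤ ∫ θ in (0 : ℝ)..(2 * Real.pi), h (cp x r θ)) :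
    0 ≤ ∫ w in Metric.ball x r₂ \ Metric.closedBall x r₁, h w := by
  set Ann := Metric.ball x r₂ \ Metric.closedBall x r₁ with hAnn
  have hm : MeasurableSet Ann := measurableSet_ball.diff measurableSet_closedBall
  rw [← integral_indicator hm, ← integral_add_left_eq_self _ x,
    ← Complex.integral_comp_polarCoord_symm]
  set F : ℝ × ℝ → ℝ := fun p => p.1 * h (cp x p.1 p.2) with hF
  have h1 : ∀ p ∈ polarCoord.target, p.1 • Ann.indicator h (x + Complex.polarCoord.symm p) =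
      (Ioo r₁ r₂ ×ˢ univ).indicator F p := by
    intro p hp
    have hp1 : 0 < p.1 := hp.1
    have h2 : x + Complex.polarCoord.symm p = cp x p.1 p.2 := by
      rw [Complex.polarCoord_symm_apply, cp, Complex.exp_mul_I, Complex.ofReal_cos,
        Complex.ofReal_sin]
    rw [h2]
    by_cases hr : p.1 ∈ Ioo r₁ r₂
    · have h3 : cp x p.1 p.2 ∈ Ann := by
        rw [hAnn, Set.mem_sdiff, Metric.mem_ball, Metric.mem_closedBall, dist_cp x hp1.le, not_le]
        exact ⟨hr.2, hr.1⟩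
      rw [indicator_of_mem h3, indicator_of_mem (show p ∈ Ioo r₁ r₂ ×ˢ univ from ⟨hr, trivial⟩),
        smul_eq_mul]
    · have h3 : cp x p.1 p.2 ∉ Ann := by
        rw [hAnn, Set.mem_sdiff, Metric.mem_ball, Metric.mem_closedBall, dist_cp x hp1.le, not_le]
        exact fun h => hr ⟨h.2, h.1⟩
      rw [indicator_of_notMem h3, indicator_of_notMem (fun h => hr h.1), smul_zero]
  rw [setIntegral_congr_fun polarCoord.open_target.measurableSet h1,
    setIntegral_indicator (measurableSet_Ioo.prod MeasurableSet.univ)]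
  have h4 : polarCoord.target ∩ (Ioo r₁ r₂ ×ˢ univ) = Ioo r₁ r₂ ×ˢ Ioo (-Real.pi) Real.pi := by
    ext p
    constructor
    · rintro ⟨hp, hq⟩
      exact ⟨hq.1, hp.2⟩
    · rintro ⟨hp, hq⟩
      exact ⟨⟨h0.trans hp.1, hq⟩, ⟨hp, trivial⟩⟩
  rw [h4]
  have hcF : ContinuousOn F (Icc r₁ r₂ ×ˢ Icc (-Real.pi) Real.pi) := by
    refine continuousOn_fst.mul (hc.comp (cp_cont x).continuousOn fun p hp => ?_)
    rw [Metric.mem_closedBall, dist_cp x (h0.le.trans hp.1.1)]
    exact hp.1.2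
  have hint : IntegrableOn F (Ioo r₁ r₂ ×ˢ Ioo (-Real.pi) Real.pi) :=
    (hcF.integrableOn_compact (isCompact_Icc.prod isCompact_Icc)).mono_set
      (prod_mono Ioo_subset_Icc_self Ioo_subset_Icc_self)
  rw [Measure.volume_eq_prod, setIntegral_prod _ (by rwa [← Measure.volume_eq_prod])]
  refine setIntegral_nonneg measurableSet_Ioo fun r hr => ?_
  simp only [hF]
  rw [integral_const_mul]
  refine mul_nonneg (h0.trans hr.1).le ?_
  rw [← integral_Ioc_eq_integral_Ioo, ← intervalIntegral.integral_of_le (by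
    linarith [Real.pi_pos])]
  have hper : Function.Periodic (fun θ => h (cp x r θ)) (2 * Real.pi) := fun θ => by
    simp only [cp_per]
  have h5 := hper.intervalIntegral_add_eq (-Real.pi) 0
  rw [show -Real.pi + 2 * Real.pi = Real.pi by ring, zero_add] at h5
  rw [h5]
  exact hnn r hr.1 hr.2

theorem cp_hasDerivAt (x : ℂ) (r θ : ℝ) :
    HasDerivAt (fun θ : ℝ => cp x r θ) (r * (Complex.exp (θ * Complex.I) * Complex.I)) θ := by
  unfold cp
  have h1 : HasDerivAt (fun θ : ℝ => (θ : ℂ) * Complex.I) (1 * Complex.I) θ :=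
    (Complex.ofRealCLM.hasDerivAt (x := θ)).mul_const Complex.I
  rw [one_mul] at h1
  exact (h1.cexp.const_mul (r : ℂ)).const_add x

theorem exp_parts (θ : ℝ) : Complex.exp (θ * Complex.I) =
    (Real.cos θ : ℂ) + (Real.sin θ : ℂ) * Complex.I := by
  rw [Complex.exp_mul_I, Complex.ofReal_cos, Complex.ofReal_sin]

theorem lin_parts {E : Type*} [NormedAddCommGroup E] [NormedSpace ℝ E] (L : ℂ →L[ℝ] E) (u v : ℝ) :
    L ((u : ℂ) + (v : ℂ) * Complex.I) = u • L 1 + v • L Complex.I := by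
  rw [map_add, ← map_smul, ← map_smul, Complex.real_smul, Complex.real_smul, mul_one]

theorem cs_ineq (X Y : ℂ) (c s : ℝ) (h : c ^ 2 + s ^ 2 = 1) :
    ‖-(s : ℂ) * X + (c : ℂ) * Y‖ ^ 2 ≤ ‖X‖ ^ 2 + ‖Y‖ ^ 2 := by
  have h1 : ‖-(s : ℂ) * X + (c : ℂ) * Y‖ ≤ |s| * ‖X‖ + |c| * ‖Y‖ := by
    refine (norm_add_le _ _).trans (le_of_eq ?_)
    rw [norm_mul, norm_mul, norm_neg, Complex.norm_real, Complex.norm_real, Real.norm_eq_abs,
      Real.norm_eq_abs]
  have h2 : ‖-(s : ℂ) * X + (c : ℂ) * Y‖ ^ 2 ≤ (|s| * ‖X‖ + |c| * ‖Y‖) ^ 2 :=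
    pow_le_pow_left₀ (norm_nonneg _) h1 2
  refine h2.trans ?_
  have h3 : |s| ^ 2 + |c| ^ 2 = 1 := by rw [sq_abs, sq_abs]; linarith
  nlinarith [sq_nonneg (|s| * ‖Y‖ - |c| * ‖X‖), sq_nonneg ‖X‖, sq_nonneg ‖Y‖]

/-- the circle -/
theorem circle (hH : S_HARDY) (hG : S_GAUSS) {a : ℝ} {Φ : ℂ → ℝ} {φ : ℂ → ℂ} {x : ℂ} {ρ r : ℝ}
    (hr : 0 < r) (hrρ : r < ρ / 2) (hΦ : ContDiffOn ℝ ∞ Φ (strip a)) (hφ : ContDiff ℝ ∞ φ)
    (hx : |x.re| + ρ / 2 < a)
    (hfl : 1 / 20 ≤ dZ ((∫ w in Metric.ball x r, lapC Φ w) / (2 * Real.pi))) :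
    ∫ θ in (0 : ℝ)..(2 * Real.pi), ‖φ (cp x r θ)‖ ^ 2 ≤
      250 * ρ ^ 2 * ∫ θ in (0 : ℝ)..(2 * Real.pi), gA Φ φ (cp x r θ) := by
  have hst : Metric.closedBall x r ⊆ strip a := ball_sub_strip (by linarith)
  have hmem : ∀ θ, cp x r θ ∈ strip a := fun θ => hst (by
    rw [Metric.mem_closedBall, dist_cp x hr.le])
  have hcp : Continuous fun θ : ℝ => cp x r θ := (cp_cont x).comp (by fun_prop : Continuous
    fun θ : ℝ => (r, θ))
  have hdΦ : ContinuousOn (fderiv ℝ Φ) (strip a) :=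
    (hΦ.continuousOn_fderiv_of_isOpen (isOpen_strip a) (by simp))
  have hdΦ' : Continuous fun θ : ℝ => fderiv ℝ Φ (cp x r θ) :=
    continuous_iff_continuousAt.2 fun θ =>
      (hdΦ.continuousAt ((isOpen_strip a).mem_nhds (hmem θ))).comp hcp.continuousAt
  have hdφ : Continuous fun θ : ℝ => fderiv ℝ φ (cp x r θ) :=
    (hφ.continuous_fderiv (by simp)).comp hcp
  have hexp : Continuous fun θ : ℝ => Complex.exp (θ * Complex.I) := by fun_prop
  have hg : Continuous fun θ : ℝ => gA Φ φ (cp x r θ) := by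
    unfold gA dS dT
    have h1 : Continuous fun θ : ℝ => φ (cp x r θ) := hφ.continuous.comp hcp
    have h2 : Continuous fun θ : ℝ => fderiv ℝ φ (cp x r θ) 1 := hdφ.clm_apply continuous_const
    have h3 : Continuous fun θ : ℝ => fderiv ℝ φ (cp x r θ) Complex.I :=
      hdφ.clm_apply continuous_const
    have h4 : Continuous fun θ : ℝ => fderiv ℝ Φ (cp x r θ) 1 := hdΦ'.clm_apply continuous_const
    have h5 : Continuous fun θ : ℝ => fderiv ℝ Φ (cp x r θ) Complex.I :=
      hdΦ'.clm_apply continuous_const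
    fun_prop
  set A : ℝ → ℝ := fun θ => -(r * fderiv ℝ Φ (cp x r θ) (Complex.exp (θ * Complex.I))) with hA
  have hAc : Continuous A := (continuous_const.mul (hdΦ'.clm_apply hexp)).neg
  have hder : ∀ θ, HasDerivAt (fun θ : ℝ => φ (cp x r θ))
      (fderiv ℝ φ (cp x r θ) (r * (Complex.exp (θ * Complex.I) * Complex.I))) θ := fun θ =>
    ((hφ.differentiable (by simp)) _).hasFDerivAt.comp_hasDerivAt θ (cp_hasDerivAt x r θ)
  have hf : ContDiff ℝ 1 (fun θ : ℝ => φ (cp x r θ)) := by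
    have h1 : ContDiff ℝ 1 (fun θ : ℝ => cp x r θ) :=
      contDiff_const.add (contDiff_const.mul
        ((Complex.ofRealCLM.contDiff.mul contDiff_const).cexp))
    exact (hφ.of_le (by exact_mod_cast le_top)).comp h1
  have hfper : ∀ θ, φ (cp x r (θ + 2 * Real.pi)) = φ (cp x r θ) := fun θ => by rw [cp_per]
  have hAper : ∀ θ, A (θ + 2 * Real.pi) = A θ := fun θ => by
    have h1 : Complex.exp (((θ + 2 * Real.pi : ℝ) : ℂ) * Complex.I) =
        Complex.exp (θ * Complex.I) := by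
      push_cast
      rw [add_mul, Complex.exp_add, Complex.exp_two_pi_mul_I, mul_one]
    simp only [hA, cp_per, h1]
  have hardy := hH (fun θ : ℝ => φ (cp x r θ)) A hf hAc hfper hAper
  have hint : ∫ θ in (0 : ℝ)..(2 * Real.pi), A θ = -∫ w in Metric.ball x r, lapC Φ w := by
    rw [hG Φ (strip a) x r hr (isOpen_strip a) hΦ hst, hA, intervalIntegral.integral_neg]
    rfl
  rw [hint, neg_div, dZ_neg] at hardy
  have hpt : ∀ θ : ℝ, ‖deriv (fun θ : ℝ => φ (cp x r θ)) θ +
      Complex.I * A θ * φ (cp x r θ)‖ ^ 2 ≤ r ^ 2 * gA Φ φ (cp x r θ) := fun θ => by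
    rw [(hder θ).deriv]
    have e1 : fderiv ℝ φ (cp x r θ) (r * (Complex.exp (θ * Complex.I) * Complex.I)) =
        (r : ℂ) * (-(Real.sin θ : ℂ) * dS φ (cp x r θ) + (Real.cos θ : ℂ) * dT φ (cp x r θ)) := by
      have h1 : (r : ℂ) * (Complex.exp (θ * Complex.I) * Complex.I) =
          ((-(r * Real.sin θ) : ℝ) : ℂ) + ((r * Real.cos θ : ℝ) : ℂ) * Complex.I := by
        rw [exp_parts]
        push_cast
        linear_combination (r : ℂ) * (Complex.sin θ) * Complex.I_sq
      rw [h1, lin_parts, dS, dT, Complex.real_smul, Complex.real_smul]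
      push_cast
      ring
    have e2 : A θ = -(r * (Real.cos θ * dS Φ (cp x r θ) + Real.sin θ * dT Φ (cp x r θ))) := by
      simp only [hA]
      rw [exp_parts, lin_parts, dS, dT, smul_eq_mul, smul_eq_mul]
    have e3 : fderiv ℝ φ (cp x r θ) (r * (Complex.exp (θ * Complex.I) * Complex.I)) +
        Complex.I * A θ * φ (cp x r θ) = (r : ℂ) * (-(Real.sin θ : ℂ) *
          (dS φ (cp x r θ) + Complex.I * (dT Φ (cp x r θ) : ℝ) * φ (cp x r θ)) +
          (Real.cos θ : ℂ) *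
          (dT φ (cp x r θ) - Complex.I * (dS Φ (cp x r θ) : ℝ) * φ (cp x r θ))) := by
      rw [e1, e2]
      push_cast
      ring
    rw [e3, norm_mul, mul_pow, Complex.norm_real, Real.norm_eq_abs, sq_abs, gA]
    exact mul_le_mul_of_nonneg_left (cs_ineq _ _ _ _ (Real.cos_sq_add_sin_sq θ)) (sq_nonneg r)
  have hpi := Real.pi_pos
  have hmono : ∫ θ in (0 : ℝ)..(2 * Real.pi), ‖deriv (fun θ : ℝ => φ (cp x r θ)) θ +
      Complex.I * A θ * φ (cp x r θ)‖ ^ 2 ≤ r ^ 2 * ∫ θ in (0 : ℝ)..(2 * Real.pi),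
        gA Φ φ (cp x r θ) := by
    rw [← intervalIntegral.integral_const_mul]
    refine intervalIntegral.integral_mono_on (by positivity) ?_ ?_ fun θ _ => hpt θ
    · refine Continuous.intervalIntegrable ?_ _ _
      have h1 : Continuous (deriv (fun θ : ℝ => φ (cp x r θ))) := hf.continuous_deriv le_rfl
      have h2 : Continuous fun θ : ℝ => φ (cp x r θ) := hφ.continuous.comp hcp
      fun_prop
    · exact (continuous_const.mul hg).intervalIntegrable _ _
  have hG0 : 0 ≤ ∫ θ in (0 : ℝ)..(2 * Real.pi), gA Φ φ (cp x r θ) :=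
    intervalIntegral.integral_nonneg (by positivity) fun θ _ => by
      unfold gA
      positivity
  have hF0 : 0 ≤ ∫ θ in (0 : ℝ)..(2 * Real.pi), ‖φ (cp x r θ)‖ ^ 2 :=
    intervalIntegral.integral_nonneg (by positivity) fun θ _ => by positivity
  set IF := ∫ θ in (0 : ℝ)..(2 * Real.pi), ‖φ (cp x r θ)‖ ^ 2
  set IG := ∫ θ in (0 : ℝ)..(2 * Real.pi), gA Φ φ (cp x r θ)
  set d := dZ ((∫ w in Metric.ball x r, lapC Φ w) / (2 * Real.pi))
  have hd2 : (1 / 20 : ℝ) ^ 2 ≤ d ^ 2 := pow_le_pow_left₀ (by norm_num) hfl 2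
  have hpi2 : Real.pi ^ 2 ≤ 10 := by
    have := Real.pi_lt_d2
    nlinarith
  have hr2 : r ^ 2 ≤ ρ ^ 2 / 4 := by nlinarith
  have h1 : 4 * (1 / 20) ^ 2 * IF ≤ 4 * d ^ 2 * IF :=
    mul_le_mul_of_nonneg_right (by linarith) hF0
  have h2 : Real.pi ^ 2 * (∫ θ in (0 : ℝ)..(2 * Real.pi), ‖deriv (fun θ : ℝ => φ (cp x r θ)) θ +
      Complex.I * A θ * φ (cp x r θ)‖ ^ 2) ≤ Real.pi ^ 2 * (r ^ 2 * IG) :=
    mul_le_mul_of_nonneg_left hmono (sq_nonneg _)
  have h3 : Real.pi ^ 2 * (r ^ 2 * IG) ≤ 10 * (ρ ^ 2 / 4 * IG) :=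
    mul_le_mul hpi2 (mul_le_mul_of_nonneg_right hr2 hG0) (by positivity) (by norm_num)
  have h4 := h1.trans (hardy.trans (h2.trans h3))
  linarith

/-- Packet ANN. -/
theorem ann (hH : S_HARDY) (hG : S_GAUSS) : S_ANN := by
  intro a Φ φ x ρ hρ hΦ hφ hx hfl
  have hst : Metric.closedBall x (ρ / 2) ⊆ strip a := ball_sub_strip hx
  have hdΦ : ContinuousOn (fderiv ℝ Φ) (strip a) :=
    (hΦ.continuousOn_fderiv_of_isOpen (isOpen_strip a) (by simp))
  have hcg : ContinuousOn (gA Φ φ) (strip a) := by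
    unfold gA dS dT
    have h1 : ContinuousOn φ (strip a) := hφ.continuous.continuousOn
    have h2 : ContinuousOn (fun w => fderiv ℝ φ w 1) (strip a) :=
      ((hφ.continuous_fderiv (by simp)).clm_apply continuous_const).continuousOn
    have h3 : ContinuousOn (fun w => fderiv ℝ φ w Complex.I) (strip a) :=
      ((hφ.continuous_fderiv (by simp)).clm_apply continuous_const).continuousOn
    have h4 : ContinuousOn (fun w => fderiv ℝ Φ w 1) (strip a) :=
      hdΦ.clm_apply continuousOn_const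
    have h5 : ContinuousOn (fun w => fderiv ℝ Φ w Complex.I) (strip a) :=
      hdΦ.clm_apply continuousOn_const
    have h6 : ContinuousOn (fun w => ((fderiv ℝ Φ w 1 : ℝ) : ℂ)) (strip a) :=
      Complex.continuous_ofReal.comp_continuousOn h4
    have h7 : ContinuousOn (fun w => ((fderiv ℝ Φ w Complex.I : ℝ) : ℂ)) (strip a) :=
      Complex.continuous_ofReal.comp_continuousOn h5
    exact ((h2.add ((continuousOn_const.mul h7).mul h1)).norm.pow 2).add
      ((h3.sub ((continuousOn_const.mul h6).mul h1)).norm.pow 2)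
  have hcφ : Continuous fun w => ‖φ w‖ ^ 2 := hφ.continuous.norm.pow 2
  have hh : ContinuousOn (fun w => 250 * ρ ^ 2 * gA Φ φ w - ‖φ w‖ ^ 2)
      (Metric.closedBall x (ρ / 2)) :=
    (continuousOn_const.mul (hcg.mono hst)).sub hcφ.continuousOn
  have h0 := polar_nonneg x (r₁ := ρ / 4) (r₂ := ρ / 2) (by positivity)
    (fun w => 250 * ρ ^ 2 * gA Φ φ w - ‖φ w‖ ^ 2) hh (fun r hr1 hr2 => by
      have hr : 0 < r := by linarith
      have hc := circle hH hG hr hr2 hΦ hφ hx (hfl r hr1 hr2)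
      have hcp : Continuous fun θ : ℝ => cp x r θ := (cp_cont x).comp (by fun_prop : Continuous
        fun θ : ℝ => (r, θ))
      have hmem : ∀ θ, cp x r θ ∈ strip a := fun θ => hst (by
        rw [Metric.mem_closedBall, dist_cp x hr.le]; exact hr2.le)
      have hgc : Continuous fun θ : ℝ => gA Φ φ (cp x r θ) :=
        continuous_iff_continuousAt.2 fun θ =>
          (hcg.continuousAt ((isOpen_strip a).mem_nhds (hmem θ))).comp hcp.continuousAt
      have i1 : IntervalIntegrable (fun θ : ℝ => 250 * ρ ^ 2 * gA Φ φ (cp x r θ)) volume 0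
          (2 * Real.pi) := (continuous_const.mul hgc).intervalIntegrable _ _
      have i2 : IntervalIntegrable (fun θ : ℝ => ‖φ (cp x r θ)‖ ^ 2) volume 0
          (2 * Real.pi) := (hcφ.comp hcp).intervalIntegrable _ _
      rw [intervalIntegral.integral_sub i1 i2, intervalIntegral.integral_const_mul]
      exact sub_nonneg.2 hc)
  have hsub : Metric.ball x (ρ / 2) \ Metric.closedBall x (ρ / 4) ⊆ Metric.closedBall x (ρ / 2) :=
    sdiff_subset.trans Metric.ball_subset_closedBall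
  have hi1 : IntegrableOn (gA Φ φ) (Metric.ball x (ρ / 2) \ Metric.closedBall x (ρ / 4)) :=
    ((hcg.mono hst).integrableOn_compact (isCompact_closedBall _ _)).mono_set hsub
  have hi2 : IntegrableOn (fun w => ‖φ w‖ ^ 2)
      (Metric.ball x (ρ / 2) \ Metric.closedBall x (ρ / 4)) :=
    (hcφ.continuousOn.integrableOn_compact (isCompact_closedBall _ _)).mono_set hsub
  rw [integral_sub (hi1.const_mul _) hi2, integral_const_mul] at h0
  linarith

end Pool.Agent.Helper50.AB
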