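import Pool.Agent.Helper27.AB.PH3.Goals

/-! Packet GWI (helper27, project AB, module PH3): the fibre `G_w` as an affine image of the ball. -/

open MeasureTheory Set Filter Topology
open scoped ContDiff

noncomputable section

namespace Pool.Agent.Helper50.AB.GWI

open Pool.Agent.Helper24.AB Pool.Agent.Helper15.AB Pool.Agent.Helper27.AB

/-- the matrix of the linear part; `E = exp (kap t)`, `E' = exp (-kap t)`, `B = 2A√e`. -/
def Mt (E E' s B : ℝ) : Matrix (Fin 3) (Fin 3) ℝ :=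
  !![ph * E * s, ph' * E' * B, 0; E * s, E' * B, 0; 0, 0, B]

theorem ph_sub : ph - ph' = Real.sqrt 5 := by
  unfold ph ph'; ring

theorem sq5 : Real.sqrt 5 ≠ 0 := by positivity

theorem det_Mt (E E' s B : ℝ) (h : E * E' = 1) : (Mt E E' s B).det = Real.sqrt 5 * (B ^ 2 * s) := by
  rw [Matrix.det_fin_three, ← ph_sub]
  simp [Mt]
  linear_combination (ph - ph') * (B ^ 2 * s) * h

/-- the affine map -/
def Tm (E E' s B A p : ℝ) (η : Fin 3 → ℝ) : Fin 3 → ℝ :=
  (Mt E E' s B).mulVec η + ![ph * (E * A - p), E * A - p, 0]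

theorem Tm0 (E E' s B A p : ℝ) (η : Fin 3 → ℝ) :
    Tm E E' s B A p η 0 = ph * (E * (A + s * η 0) - p) + ph' * (E' * (B * η 1)) := by
  simp [Tm, Mt, dotProduct, Fin.sum_univ_three]; ring

theorem Tm1 (E E' s B A p : ℝ) (η : Fin 3 → ℝ) :
    Tm E E' s B A p η 1 = (E * (A + s * η 0) - p) + (E' * (B * η 1)) := by
  simp [Tm, Mt, dotProduct, Fin.sum_univ_three]; ring

theorem Tm2 (E E' s B A p : ℝ) (η : Fin 3 → ℝ) :
    Tm E E' s B A p η 2 = B * η 2 := by
  simp [Tm, Mt, dotProduct, Fin.sum_univ_three]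

theorem Tmp (E E' s B A p : ℝ) (η : Fin 3 → ℝ) :
    (Tm E E' s B A p η 0 - ph' * Tm E E' s B A p η 1) / Real.sqrt 5 = E * (A + s * η 0) - p := by
  rw [Tm0, Tm1, div_eq_iff sq5, ← ph_sub]; ring

theorem Tmm (E E' s B A p : ℝ) (η : Fin 3 → ℝ) :
    (ph * Tm E E' s B A p η 1 - Tm E E' s B A p η 0) / Real.sqrt 5 = E' * (B * η 1) := by
  rw [Tm0, Tm1, div_eq_iff sq5, ← ph_sub]; ring

theorem Tm_inj (E E' s B A p : ℝ) (h : E * E' = 1) (hs : s ≠ 0) (hB : B ≠ 0) :
    Function.Injective (Tm E E' s B A p) := by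
  intro η ξ he
  have hE : E ≠ 0 := left_ne_zero_of_mul_eq_one h
  have hE' : E' ≠ 0 := right_ne_zero_of_mul_eq_one h
  have h0 := Tmp E E' s B A p η
  have h1 := Tmm E E' s B A p η
  have h2 := Tm2 E E' s B A p η
  rw [he, Tmp] at h0
  rw [he, Tmm] at h1
  rw [he, Tm2] at h2
  have a0 : η 0 = ξ 0 := by
    have : E * (s * (ξ 0 - η 0)) = 0 := by linear_combination h0
    have := (mul_eq_zero.1 ((mul_eq_zero.1 this).resolve_left hE)).resolve_left hs
    linarith
  have a1 : η 1 = ξ 1 := by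
    have : E' * (B * (ξ 1 - η 1)) = 0 := by linear_combination h1
    have := (mul_eq_zero.1 ((mul_eq_zero.1 this).resolve_left hE')).resolve_left hB
    linarith
  have a2 : η 2 = ξ 2 := by
    have : B * (ξ 2 - η 2) = 0 := by linear_combination h2
    have := (mul_eq_zero.1 this).resolve_left hB
    linarith
  funext i
  fin_cases i
  · exact a0
  · exact a1
  · exact a2

theorem meas_ball3 : MeasurableSet ball3 := by
  unfold ball3
  exact (isOpen_lt (by fun_prop) continuous_const).measurableSet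

theorem hasFD (E E' s B A p : ℝ) (η : Fin 3 → ℝ) (S : Set (Fin 3 → ℝ)) :
    HasFDerivWithinAt (Tm E E' s B A p)
      (LinearMap.toContinuousLinearMap (Matrix.toLin' (Mt E E' s B))) S η := by
  have h : HasFDerivAt (fun η : Fin 3 → ℝ =>
      (LinearMap.toContinuousLinearMap (Matrix.toLin' (Mt E E' s B))) η +
        ![ph * (E * A - p), E * A - p, 0])
      (LinearMap.toContinuousLinearMap (Matrix.toLin' (Mt E E' s B))) η :=
    (ContinuousLinearMap.hasFDerivAt _).add_const _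
  exact h.hasFDerivWithinAt

theorem rf (a A : ℝ) (s : ℝ → ℝ) (p : ℂ → ℝ) (hp : IsProfile a A s) (hA : S_ATL) (w : ℂ)
    (hw : w ∈ strip a) (η : Fin 3 → ℝ) (X : Fin 3 → ℝ)
    (hX : X = Tm (Real.exp (kap * w.im)) (Real.exp (-(kap * w.im))) (s w.re)
      (2 * A * Real.sqrt (a ^ 2 - w.re ^ 2)) A (p w) η) :
    rfun a A s p (![(X 0 : ℂ), (X 1 : ℂ), (X 2 : ℂ), w] : V4) =
      (a ^ 2 - w.re ^ 2) * (∑ i, η i ^ 2 - 1) := by
  have hw' : |w.re| < a := hw
  have he : 0 < a ^ 2 - w.re ^ 2 := by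
    have := sq_lt_sq' (neg_lt_of_abs_lt hw') (lt_of_abs_lt hw')
    linarith
  have hsq : Real.sqrt (a ^ 2 - w.re ^ 2) ^ 2 = a ^ 2 - w.re ^ 2 := Real.sq_sqrt he.le
  have hE : Real.exp (kap * w.im) * Real.exp (-(kap * w.im)) = 1 := by
    rw [← Real.exp_add]; simp
  have hat := (hA a A s hp).2.2.1 w.re hw'
  have hatp := (hA a A s hp).2.1 w.re
  have hy : ypf p (![(X 0 : ℂ), (X 1 : ℂ), (X 2 : ℂ), w] : V4) = A + s w.re * η 0 := by
    unfold ypf xp
    simp only [Matrix.cons_val_zero, Matrix.cons_val_one, Matrix.cons_val, Complex.ofReal_re]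
    rw [hX, Tmp]
    linear_combination (A + s w.re * η 0) * hE
  have hm : ymf (![(X 0 : ℂ), (X 1 : ℂ), (X 2 : ℂ), w] : V4) =
      2 * A * Real.sqrt (a ^ 2 - w.re ^ 2) * η 1 := by
    unfold ymf xm
    simp only [Matrix.cons_val_zero, Matrix.cons_val_one, Matrix.cons_val, Complex.ofReal_re]
    rw [hX, Tmm]
    linear_combination (2 * A * Real.sqrt (a ^ 2 - w.re ^ 2) * η 1) * hE
  have h0 : x0 (![(X 0 : ℂ), (X 1 : ℂ), (X 2 : ℂ), w] : V4) =
      2 * A * Real.sqrt (a ^ 2 - w.re ^ 2) * η 2 := by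
    unfold x0
    simp only [Matrix.cons_val, Complex.ofReal_re]
    rw [hX, Tm2]
  unfold rfun
  rw [hy, hm, h0]
  simp only [Matrix.cons_val]
  have hApos := hp.A_pos
  rw [Fin.sum_univ_three]
  have h1 : (A + s w.re * η 0 - A) ^ 2 / Atl a A s w.re = (a ^ 2 - w.re ^ 2) * η 0 ^ 2 := by
    rw [div_eq_iff hatp.ne']
    linear_combination -(η 0 ^ 2) * hat
  rw [h1]
  have h2 : ((2 * A * Real.sqrt (a ^ 2 - w.re ^ 2) * η 1) ^ 2 +
      (2 * A * Real.sqrt (a ^ 2 - w.re ^ 2) * η 2) ^ 2) / (4 * A ^ 2) =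
      (a ^ 2 - w.re ^ 2) * (η 1 ^ 2 + η 2 ^ 2) := by
    rw [div_eq_iff (by positivity)]
    linear_combination (4 * A ^ 2 * (η 1 ^ 2 + η 2 ^ 2)) * hsq
  rw [h2]
  ring

theorem image_eq (a A : ℝ) (s : ℝ → ℝ) (p : ℂ → ℝ) (hp : IsProfile a A s) (hA : S_ATL) (w : ℂ)
    (hw : w ∈ strip a) :
    Gw a A s p w = Tm (Real.exp (kap * w.im)) (Real.exp (-(kap * w.im))) (s w.re)
      (2 * A * Real.sqrt (a ^ 2 - w.re ^ 2)) A (p w) '' ball3 := by
  have hw' : |w.re| < a := hw
  have he : 0 < a ^ 2 - w.re ^ 2 := by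
    have := sq_lt_sq' (neg_lt_of_abs_lt hw') (lt_of_abs_lt hw')
    linarith
  have hspos : 0 < s w.re := hp.pos _ (abs_lt.1 hw')
  have hApos := hp.A_pos
  have hBpos : 0 < 2 * A * Real.sqrt (a ^ 2 - w.re ^ 2) := by positivity
  set E := Real.exp (kap * w.im) with hEdef
  set E' := Real.exp (-(kap * w.im)) with hE'def
  have hE : E * E' = 1 := by
    rw [hEdef, hE'def, ← Real.exp_add]; simp
  have hlt : |w.re| < 3 * a / 2 := by have := hp.a_pos; linarith
  ext X
  constructor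
  · intro hX
    set B := 2 * A * Real.sqrt (a ^ 2 - w.re ^ 2) with hB
    set η : Fin 3 → ℝ := ![((E' * ((X 0 - ph' * X 1) / Real.sqrt 5 + p w)) - A) / s w.re,
      (E * ((ph * X 1 - X 0) / Real.sqrt 5)) / B, X 2 / B] with hη
    have e0 : s w.re * η 0 = (E' * ((X 0 - ph' * X 1) / Real.sqrt 5 + p w)) - A := by
      simp only [hη, Matrix.cons_val_zero]
      field_simp
    have e1 : B * η 1 = E * ((ph * X 1 - X 0) / Real.sqrt 5) := by
      simp only [hη, Matrix.cons_val_one, Matrix.cons_val_zero]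
      field_simp
    have e2 : B * η 2 = X 2 := by
      simp only [hη, Matrix.cons_val]
      field_simp
    have hXe : X = Tm E E' (s w.re) B A (p w) η := by
      have a0 : E * (A + s w.re * η 0) - p w = (X 0 - ph' * X 1) / Real.sqrt 5 := by
        rw [e0]; linear_combination ((X 0 - ph' * X 1) / Real.sqrt 5 + p w) * hE
      have a1 : E' * (B * η 1) = (ph * X 1 - X 0) / Real.sqrt 5 := by
        rw [e1]; linear_combination ((ph * X 1 - X 0) / Real.sqrt 5) * hE
      funext i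
      fin_cases i
      · show X 0 = Tm E E' (s w.re) B A (p w) η 0
        rw [Tm0, a0, a1]
        have h5 := sq5
        have hs := ph_sub
        field_simp
        rw [← hs]; ring
      · show X 1 = Tm E E' (s w.re) B A (p w) η 1
        rw [Tm1, a0, a1]
        have h5 := sq5
        have hs := ph_sub
        field_simp
        rw [← hs]; ring
      · show X 2 = Tm E E' (s w.re) B A (p w) η 2
        rw [Tm2, e2]
    refine ⟨η, ?_, hXe.symm⟩
    have hr := rf a A s p hp hA w hw η X hXe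
    have h2 : rfun a A s p (![(X 0 : ℂ), (X 1 : ℂ), (X 2 : ℂ), w] : V4) < 0 := hX.2
    rw [hr] at h2
    have h3 : ∑ i, η i ^ 2 - 1 < 0 := by
      by_contra hc
      push Not at hc
      have := mul_nonneg he.le hc
      linarith
    show ∑ i, η i ^ 2 < 1
    linarith
  · rintro ⟨η, hη, rfl⟩
    have hr := rf a A s p hp hA w hw η _ rfl
    refine ⟨by simpa using hlt, ?_⟩
    rw [hr]
    have h1 : ∑ i, η i ^ 2 < 1 := hη
    exact mul_neg_of_pos_of_neg he (by linarith)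

end Pool.Agent.Helper50.AB.GWI

namespace Pool.Agent.Helper50.AB

open Pool.Agent.Helper24.AB Pool.Agent.Helper15.AB Pool.Agent.Helper27.AB
open Pool.Agent.Helper50.AB.GWI

/-- GWI -/
theorem gwi (hA : S_ATL) : S_GWI := by
  intro a A s p hp α α' l w hw
  have hw' : |w.re| < a := hw
  have he : 0 < a ^ 2 - w.re ^ 2 := by
    have := sq_lt_sq' (neg_lt_of_abs_lt hw') (lt_of_abs_lt hw')
    linarith
  have hsq : Real.sqrt (a ^ 2 - w.re ^ 2) ^ 2 = a ^ 2 - w.re ^ 2 := Real.sq_sqrt he.le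
  have hspos : 0 < s w.re := hp.pos _ (abs_lt.1 hw')
  have hApos := hp.A_pos
  have hBpos : 0 < 2 * A * Real.sqrt (a ^ 2 - w.re ^ 2) := by positivity
  have hE : Real.exp (kap * w.im) * Real.exp (-(kap * w.im)) = 1 := by
    rw [← Real.exp_add]; simp
  rw [image_eq a A s p hp hA w hw,
    integral_image_eq_integral_abs_det_fderiv_smul volume meas_ball3
      (fun η _ => hasFD _ _ _ _ _ _ η ball3)
      (Tm_inj _ _ _ _ _ _ hE hspos.ne' hBpos.ne').injOn, ← integral_const_mul]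
  refine integral_congr_ae (Eventually.of_forall fun η => ?_)
  have hdet : (LinearMap.toContinuousLinearMap (Matrix.toLin' (Mt (Real.exp (kap * w.im))
      (Real.exp (-(kap * w.im))) (s w.re) (2 * A * Real.sqrt (a ^ 2 - w.re ^ 2))))).det =
      Real.sqrt 5 * ((2 * A * Real.sqrt (a ^ 2 - w.re ^ 2)) ^ 2 * s w.re) := by
    rw [LinearMap.det_toContinuousLinearMap, LinearMap.det_toLin', det_Mt _ _ _ _ hE]
  simp only [hdet]
  rw [abs_of_pos (by positivity), Tmp, Tmm, Tm2, smul_eq_mul, Fin.sum_univ_three]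
  simp only [Matrix.cons_val_zero, Matrix.cons_val_one, Matrix.cons_val]
  rw [mul_assoc (4 * Real.sqrt 5 * A ^ 2 * s w.re * (a ^ 2 - w.re ^ 2)), ← Real.exp_add]
  have h1 : Real.sqrt 5 * ((2 * A * Real.sqrt (a ^ 2 - w.re ^ 2)) ^ 2 * s w.re) =
      4 * Real.sqrt 5 * A ^ 2 * s w.re * (a ^ 2 - w.re ^ 2) := by
    linear_combination (4 * Real.sqrt 5 * A ^ 2 * s w.re) * hsq
  rw [h1]
  congr 2
  unfold uf vf
  ring

end Pool.Agent.Helper50.AB
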